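import Pool.Agent.H705.TR.Stm

set_option autoImplicit false

namespace Pool.Agent.H344.TR

open MeasureTheory ProbabilityTheory Finset Filter Topology Pool.Agent.H705.TR

theorem T_MOD : P_MOD := by
  intro M hM
  have : ∀ c, Nonempty (Fin (M c)) := fun c => ⟨⟨0, hM c⟩⟩
  let μ : (c : ℕ) → Measure (Fin (M c)) := fun c => uniformOn Set.univ
  have hμ : ∀ c, IsProbabilityMeasure (μ c) := fun c =>
    inferInstanceAs (IsProbabilityMeasure (uniformOn (Set.univ : Set (Fin (M c)))))
  refine ⟨(c : ℕ) → Fin (M c), inferInstance, Measure.infinitePi μ,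
    fun c ω => ((ω c : Fin (M c)) : ℕ), ?_⟩
  have hme : ∀ c, Measurable (fun k : Fin (M c) => (k : ℕ)) := fun c => measurable_from_top
  refine ⟨inferInstance, fun c => (hme c).comp (measurable_pi_apply c), ?_, fun c ω => (ω c).2, ?_⟩
  · exact iIndepFun_infinitePi (P := μ) (X := fun c k => (k : ℕ)) (fun c => hme c)
  · intro c k hk
    have h1 : {ω : (c : ℕ) → Fin (M c) | ((ω c : Fin (M c)) : ℕ) = k} =
        (fun ω => ω c) ⁻¹' {(⟨k, hk⟩ : Fin (M c))} := by
      ext ω
      simp only [Set.mem_ofPred_eq, Set.mem_preimage, Set.mem_singleton_iff]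
      exact (Fin.ext_iff (a := ω c) (b := ⟨k, hk⟩)).symm
    rw [h1, (measurePreserving_eval_infinitePi μ c).measure_preimage
      (measurableSet_singleton _).nullMeasurableSet]
    show uniformOn Set.univ {(⟨k, hk⟩ : Fin (M c))} = _
    rw [uniformOn_univ, Measure.count_singleton, Fintype.card_fin, one_div]

end Pool.Agent.H344.TR
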