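import Pool.Agent.H705.TR.Stm

set_option autoImplicit false

namespace Pool.Agent.H344.TR

open Pool.Agent.H705.TR

theorem nxt_le (n c y : ℕ) : (nxt n c y).2 ≤ c := by
  unfold nxt
  exact (min_le_left _ _).trans (Nat.sub_le _ _)

theorem T_RCH : P_RCH := by
  refine ⟨?_, ?_, ?_, ?_⟩
  · intro z Q Q' K
    induction K with
    | zero => intro n c x _ h; exact h
    | succ K ih =>
      intro n c x hQ h
      rcases h with ⟨h1, h2⟩ | ⟨h1, h2⟩
      · exact Or.inl ⟨h1, hQ _ _ h1 h2⟩
      · exact Or.inr ⟨h1, ih _ _ _ hQ h2⟩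
  · intro z Q K
    induction K with
    | zero => intro n c x x' _; exact Iff.rfl
    | succ K ih =>
      intro n c x x' h
      have h1 := ih (nxt n c (x c)).1 (nxt n c (x c)).2 x x' fun i hi =>
        h i (hi.trans (nxt_le _ _ _))
      unfold Reach
      rw [h1, h c le_rfl]
  · intro z Q K
    induction K with
    | zero => intro n c x h; exact h.elim
    | succ K ih =>
      intro n c x h
      rcases h with ⟨h1, _⟩ | ⟨h1, h2⟩
      · by_cases hq : Q c (x c)
        · exact Or.inl (Or.inl ⟨h1, hq⟩)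
        · exact Or.inr (Or.inl ⟨h1, hq⟩)
      · rcases ih _ _ _ h2 with h3 | h3
        · exact Or.inl (Or.inr ⟨h1, h3⟩)
        · exact Or.inr (Or.inr ⟨h1, h3⟩)
  · intro z c y
    constructor
    · rintro ⟨h0, h2, h6⟩ p hp _ β hβ hpc
      rcases hβ with rfl | rfl | rfl
      · exact h0 p hp hpc
      · exact h2 p hp hpc
      · exact h6 p hp hpc
    · intro hc hR
      have key : ∀ β : ℕ, (β = 0 ∨ β = 2 ∨ β = 6) → PrimeIn (c + β) (y + β) := by
        intro β hβ p hp hpc
        refine hR p hp ?_ β hβ hpc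
        by_contra hlt
        push Not at hlt
        have h1 : (z + 1) ^ 2 ≤ p ^ 2 := Nat.pow_le_pow_left hlt 2
        omega
      exact ⟨key 0 (Or.inl rfl), key 2 (Or.inr (Or.inl rfl)), key 6 (Or.inr (Or.inr rfl))⟩

end Pool.Agent.H344.TR
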