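import Pool.Agent.H705.TR.Stm

set_option autoImplicit false

namespace Pool.Agent.H344.TR

open MeasureTheory ProbabilityTheory Finset Filter Topology Pool.Agent.H705.TR

theorem T_UN : P_UN := by
  intro Ω _ M P X h c Q
  classical
  have hm : MeasurableSet {ω | Q (X c ω)} := by
    have h1 : {ω | Q (X c ω)} = X c ⁻¹' {k | Q k} := rfl
    rw [h1]
    exact h.meas c (MeasurableSet.of_discrete)
  refine ⟨hm, ?_⟩
  have h1 : {ω | Q (X c ω)} = ⋃ k ∈ (range (M c)).filter Q, {ω | X c ω = k} := by
    ext ω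
    simp only [Set.mem_ofPred_eq, Set.mem_iUnion, Finset.mem_filter, Finset.mem_range,
      exists_prop]
    constructor
    · intro hq
      exact ⟨X c ω, ⟨h.lt c ω, hq⟩, rfl⟩
    · rintro ⟨k, ⟨_, hq⟩, hk⟩
      rw [hk]
      exact hq
  have hd : Set.PairwiseDisjoint (↑((range (M c)).filter Q) : Set ℕ)
      (fun k => {ω | X c ω = k}) := by
    intro a _ b _ hab
    rw [Function.onFun, Set.disjoint_left]
    intro ω h2 h3
    exact hab (h2.symm.trans h3)
  have hm' : ∀ k ∈ (range (M c)).filter Q, MeasurableSet {ω | X c ω = k} := by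
    intro k _
    exact h.meas c (measurableSet_singleton k)
  have h2 : P {ω | Q (X c ω)} = ∑ k ∈ (range (M c)).filter Q, ((M c : ℕ) : ENNReal)⁻¹ := by
    rw [h1, measure_biUnion_finset hd hm']
    refine Finset.sum_congr rfl fun k hk => ?_
    exact h.law c k (Finset.mem_range.1 (Finset.mem_filter.1 hk).1)
  unfold Measure.real un
  rw [h2, Finset.sum_const, nsmul_eq_mul, ENNReal.toReal_mul, ENNReal.toReal_inv,
    ENNReal.toReal_natCast, ENNReal.toReal_natCast, div_eq_mul_inv]

end Pool.Agent.H344.TR
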